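import Pool.Agent.H44.Pin.Assembly

/-! Pinwheels do not support all trees. -/

namespace Pool.Agent.Results.MP_17a680_co.NotAllTrees

/-- The line through the origin at angle `t`, measured clockwise from the positive `x`-axis. -/
def lineAt (t : ℝ) : Set (ℝ × ℝ) := {x | ∃ r : ℝ, x = (r * Real.cos t, -(r * Real.sin t))}

/-- `L` is an `n`-line pinwheel: `n` distinct lines through the origin of the plane, labelled in
clockwise order (the clockwise angles of the lines can be chosen strictly increasing inside a
half-turn). -/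
def IsPinwheel {n : ℕ} (L : Fin n → Set (ℝ × ℝ)) : Prop :=
  ∃ t : Fin n → ℝ, StrictMono t ∧ (∀ i j, t j < t i + Real.pi) ∧ ∀ i, L i = lineAt (t i)

/-- The straight-line drawing of `T` with vertex `v` at `q v` is crossing-free: the segments of
two different edges do not meet in a point interior to both. -/
def CrossingFree {V : Type} (T : SimpleGraph V) (q : V → ℝ × ℝ) : Prop :=
  ∀ u v u' v', T.Adj u v → T.Adj u' v' → s(u, v) ≠ s(u', v') →
    Disjoint (openSegment ℝ (q u) (q v)) (openSegment ℝ (q u') (q v'))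

/-- `R` supports `T` with the vertex labelling `π`: there are pairwise distinct points `p i` in
`R i` such that placing each vertex `v` at `p (π v)` gives a crossing-free drawing. -/
def SupportsWith {n : ℕ} {V : Type} (R : Fin n → Set (ℝ × ℝ)) (T : SimpleGraph V)
    (π : V ≃ Fin n) : Prop :=
  ∃ p : Fin n → ℝ × ℝ, Function.Injective p ∧ (∀ i, p i ∈ R i) ∧
    CrossingFree T (fun v => p (π v))

/-- `R` supports `T`: it supports `T` with every vertex labelling. -/
def Supports {n : ℕ} {V : Type} (R : Fin n → Set (ℝ × ℝ)) (T : SimpleGraph V) : Prop :=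
  ∀ π : V ≃ Fin n, SupportsWith R T π

/-- Some pinwheel does not support some tree: there are `n ≥ 1`, an `n`-line pinwheel and a tree
on `n` vertices which the pinwheel does not support. -/
theorem result : ∃ (n : ℕ) (L : Fin n → Set (ℝ × ℝ)) (V : Type) (T : SimpleGraph V),
    1 ≤ n ∧ IsPinwheel L ∧ Nat.card V = n ∧ T.IsTree ∧ ¬ Supports L T := by
  obtain ⟨n, t, π, h1, h2, h3⟩ := Pool.Agent.H44.Pin.main
  refine ⟨n, fun i => lineAt (t i), _,
    Pool.Agent.H44.Pin.UT (Pool.Agent.H44.Pin.KK + 1) 16, ?_, ⟨t, h1, h2, fun i => rfl⟩,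
    ?_, Pool.Agent.H44.Pin.UT_tree _ _, ?_⟩
  · have := (π (Pool.Agent.H44.Pin.uroot _ _)).isLt
    omega
  · rw [Nat.card_congr π, Nat.card_eq_fintype_card, Fintype.card_fin]
  · intro h
    obtain ⟨p, p1, p2, p3⟩ := h π
    exact h3 ⟨p, p1, p2, p3⟩

end Pool.Agent.Results.MP_17a680_co.NotAllTrees
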